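import Pool.Agent.E8helper42.TG.Tri

/-!
# Incomplete integrals on cyclic trigonal curves
-/

set_option autoImplicit false
set_option linter.unusedSectionVars false

open Complex Set MeasureTheory Filter Topology intervalIntegral

namespace Pool.Agent.E8helper42.MX

open Pool.Agent.E8helper42.TG

variable {n : ℕ}

/-- the branch of `1 / y` on the left of all branch points -/
noncomputable def yl (e : Fin (n + 1) → ℂ) (x : ℂ) : ℂ := ∏ i, -(e i - x) ^ (-(1 / 3) : ℂ)

/-- the branch of `y` -/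
noncomputable def yy (e : Fin (n + 1) → ℂ) (x : ℂ) : ℂ := ∏ i, -(e i - x) ^ (1 / 3 : ℂ)

/-- the incomplete integral from `e 0` to `p` -/
noncomputable def QQ (a : ℕ) (e : Fin (n + 1) → ℂ) (p : ℂ) : ℂ :=
  ∫ u in (0 : ℝ)..1, (p - e 0) * ((e 0 + u * (p - e 0)) ^ a * yl e (e 0 + u * (p - e 0)))

/-- the factors without singularities on the segment -/
noncomputable def Rr (a : ℕ) (e : Fin (n + 1) → ℂ) (p : ℂ) (u : ℝ) : ℂ :=
  (e 0 + u * (p - e 0)) ^ a * ∏ i ∈ Finset.univ.erase 0, -(e i - (e 0 + u * (p - e 0))) ^ (-(1 / 3) : ℂ)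

lemma third_re : (-1 : ℝ) < (-(1 / 3) : ℂ).re := by
  have h1 : (-(1 / 3) : ℂ) = ((-(1 / 3) : ℝ) : ℂ) := by push_cast; ring
  rw [h1, Complex.ofReal_re]
  norm_num

lemma QQ_eq (a : ℕ) {e : Fin (n + 1) → ℂ} {p : ℂ} (hp : p.re < (e 0).re) :
    QQ a e p = (e 0 - p) ^ (2 / 3 : ℂ) * ∫ u in (0 : ℝ)..1, wt (-(1 / 3)) 0 u * Rr a e p u := by
  unfold QQ
  rw [← intervalIntegral.integral_const_mul]
  refine int_congr fun u hu => ?_
  have h0 : e 0 - p ≠ 0 := slitPlane_ne_zero (slit_of_re (by rw [Complex.sub_re]; linarith))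
  have h1 : e 0 - (e 0 + u * (p - e 0)) = (u : ℂ) * (e 0 - p) := by ring
  have h2 : ((u : ℂ) * (e 0 - p)) ^ (-(1 / 3) : ℂ) = (u : ℂ) ^ (-(1 / 3) : ℂ) * (e 0 - p) ^ (-(1 / 3) : ℂ) := by
    rw [real_mul_cpow hu.1 h0]
  have h3 : (e 0 - p) ^ (2 / 3 : ℂ) = (e 0 - p) * (e 0 - p) ^ (-(1 / 3) : ℂ) := by
    have h4 : (2 / 3 : ℂ) = 1 + -(1 / 3) := by norm_num
    rw [h4, Complex.cpow_add _ _ h0, Complex.cpow_one]
  have h5 : (wt (-(1 / 3)) 0 u) = (u : ℂ) ^ (-(1 / 3) : ℂ) := by
    unfold wt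
    rw [Complex.cpow_zero, mul_one]
  unfold yl Rr
  rw [← Finset.mul_prod_erase Finset.univ _ (Finset.mem_univ (0 : Fin (n + 1))), h1, h2, h3, h5]
  ring

/-- the domain: `none` is the point, `some i` are the branch points -/
def Vd (n : ℕ) : Set (Option (Fin (n + 1)) → ℂ) :=
  {x | (x none).re < (x (some 0)).re ∧ ∀ i : Fin (n + 1), i ≠ 0 → (x (some 0)).re < (x (some i)).re}

lemma Vd_open (n : ℕ) : IsOpen (Vd n) := by
  have h : Vd n = {x : Option (Fin (n + 1)) → ℂ | (x none).re < (x (some 0)).re} ∩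
      ⋂ i ∈ (Finset.univ.erase 0 : Finset (Fin (n + 1))), {x | (x (some 0)).re < (x (some i)).re} := by
    ext x
    simp [Vd]
  rw [h]
  refine IsOpen.inter (isOpen_lt (by fun_prop) (by fun_prop)) ?_
  exact isOpen_biInter_finset fun i _ => isOpen_lt (by fun_prop) (by fun_prop)

lemma seg_slit {x : Option (Fin (n + 1)) → ℂ} (hx : x ∈ Vd n) {u : ℝ} (hu : u ∈ Icc (0 : ℝ) 1) {i : Fin (n + 1)}
    (hi : i ≠ 0) : x (some i) - (x (some 0) + u * (x none - x (some 0))) ∈ slitPlane := by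
  have h1 := hx.1
  have h2 := hx.2 i hi
  refine slit_of_re ?_
  rw [Complex.sub_re, Complex.add_re, Complex.re_ofReal_mul, Complex.sub_re]
  nlinarith [hu.1, hu.2, mul_nonneg hu.1 (sub_nonneg.2 h1.le)]

/-- **analytic dependence** -/
theorem QQ_an (a : ℕ) : AnalyticOnNhd ℂ (fun x : Option (Fin (n + 1)) → ℂ => QQ a (fun i => x (some i)) (x none))
    (Vd n) := by
  have h1 : AnalyticOnNhd ℂ (fun x : Option (Fin (n + 1)) → ℂ => ∫ u in (0 : ℝ)..1, wt (-(1 / 3)) 0 u *
      Rr a (fun i => x (some i)) (x none) u) (Vd n) := by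
    refine an_int (Vd_open n) zero_le_one (wt_int third_re (by simp))
      (F := fun u x => Rr a (fun i => x (some i)) (x none) u) ?_ ?_
    · rintro ⟨u, x⟩ ⟨hu, hx⟩
      refine ContinuousAt.continuousWithinAt ?_
      unfold Rr
      refine ContinuousAt.mul (by fun_prop) ?_
      refine tendsto_finsetProd _ fun i hi => ?_
      refine ContinuousAt.neg ?_
      exact ContinuousAt.cpow (by fun_prop) continuousAt_const (seg_slit hx hu (Finset.ne_of_mem_erase hi))
    · intro u hu x hx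
      unfold Rr
      refine DifferentiableAt.fun_mul (by fun_prop) ?_
      exact prod_diffAt (f := fun i (x : Option (Fin (n + 1)) → ℂ) =>
        -(x (some i) - (x (some 0) + u * (x none - x (some 0)))) ^ (-(1 / 3) : ℂ)) _ fun i hi =>
          DifferentiableAt.fun_neg (DifferentiableAt.cpow_const (by fun_prop) (seg_slit hx hu (Finset.ne_of_mem_erase hi)))
  intro x hx
  have h2 : AnalyticAt ℂ (fun x : Option (Fin (n + 1)) → ℂ => (x (some 0) - x none) ^ (2 / 3 : ℂ)) x := by
    have h3 : ∀ i : Option (Fin (n + 1)), AnalyticAt ℂ (fun x : Option (Fin (n + 1)) → ℂ => x i) x := fun i =>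
      (ContinuousLinearMap.proj (R := ℂ) (φ := fun _ : Option (Fin (n + 1)) => ℂ) i).analyticAt x
    exact AnalyticAt.cpow ((h3 _).fun_sub (h3 _)) analyticAt_const (slit_of_re (by
      rw [Complex.sub_re]
      linarith [hx.1]))
  refine (h2.fun_mul (h1 x hx)).congr ?_
  filter_upwards [(Vd_open n).mem_nhds hx] with z hz
  rw [QQ_eq a (e := fun i => z (some i)) (p := z none) hz.1]

lemma yl_contAt {e : Fin (n + 1) → ℂ} {x : ℂ} (h : ∀ i, x.re < (e i).re) : ContinuousAt (yl e) x := by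
  unfold yl
  refine tendsto_finsetProd _ fun i _ => ?_
  exact ContinuousAt.neg (ContinuousAt.cpow (by fun_prop) continuousAt_const (slit_of_re (by
    rw [Complex.sub_re]
    linarith [h i])))

/-- **the derivative** -/
theorem QQ_deriv (a : ℕ) {e : Fin (n + 1) → ℂ} {p : ℂ} (hp : p.re < (e 0).re) (he : ∀ i, i ≠ 0 → (e 0).re < (e i).re) :
    HasDerivAt (QQ a e) (p ^ a * yl e p) p := by
  -- differentiability
  have hx : (fun o : Option (Fin (n + 1)) => o.elim p e) ∈ Vd n := ⟨hp, he⟩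
  have hd : DifferentiableAt ℂ (QQ a e) p := by
    have h1 := (QQ_an a _ hx).differentiableAt
    have h2 : DifferentiableAt ℂ (fun z : ℂ => fun o : Option (Fin (n + 1)) => o.elim z e) p := by
      rw [differentiableAt_pi]
      rintro (_ | i)
      · exact differentiableAt_id
      · exact differentiableAt_const _
    exact DifferentiableAt.comp (g := fun x : Option (Fin (n + 1)) → ℂ => QQ a (fun i => x (some i)) (x none)) p h1 h2
  have h0 : p - e 0 ≠ 0 := by
    intro h
    have := sub_eq_zero.1 h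
    rw [this] at hp
    exact lt_irrefl _ hp
  set G : ℝ → ℂ := fun s => (p - e 0) * ((e 0 + s * (p - e 0)) ^ a * yl e (e 0 + s * (p - e 0))) with hG
  -- along the segment
  have hsub : ∀ t : ℝ, QQ a e (e 0 + t * (p - e 0)) = ∫ s in (0 : ℝ)..t, G s := by
    intro t
    have h1 := intervalIntegral.smul_integral_comp_mul_left (a := (0 : ℝ)) (b := 1) G t
    rw [mul_zero, mul_one] at h1
    rw [← h1, ← intervalIntegral.integral_smul]
    unfold QQ
    refine intervalIntegral.integral_congr fun u _ => ?_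
    simp only [hG, Complex.real_smul]
    push_cast
    have h2 : e 0 + (u : ℂ) * (e 0 + t * (p - e 0) - e 0) = e 0 + (t * u : ℂ) * (p - e 0) := by ring
    rw [h2]
    ring
  have hpt : ∀ s : ℝ, 0 < s → ∀ i, (e 0 + s * (p - e 0)).re < (e i).re := by
    intro s hs i
    have h1 : (e 0 + s * (p - e 0)).re < (e 0).re := by
      rw [Complex.add_re, Complex.re_ofReal_mul, Complex.sub_re]
      nlinarith
    rcases eq_or_ne i 0 with h2 | h2
    · rw [h2]
      exact h1
    · exact h1.trans (he i h2)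
  have hGc : ∀ s : ℝ, 0 < s → ContinuousAt G s := by
    intro s hs
    rw [hG]
    have h1 := yl_contAt (hpt s hs)
    have h2 : ContinuousAt (fun s : ℝ => yl e (e 0 + s * (p - e 0))) s :=
      ContinuousAt.comp (g := yl e) (f := fun s : ℝ => e 0 + s * (p - e 0)) h1 (by fun_prop)
    exact continuousAt_const.mul (ContinuousAt.mul (by fun_prop) h2)
  have hint : IntervalIntegrable G volume 0 1 := by
    have h1 : IntervalIntegrable (fun u => (e 0 - p) ^ (2 / 3 : ℂ) * (wt (-(1 / 3)) 0 u * Rr a e p u)) volume 0 1 := by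
      refine (wt_mul_int third_re (by simp) ?_).const_mul _
      intro u hu
      refine ContinuousAt.continuousWithinAt ?_
      unfold Rr
      refine ContinuousAt.mul (by fun_prop) ?_
      refine tendsto_finsetProd _ fun i hi => ?_
      refine ContinuousAt.neg ?_
      exact ContinuousAt.cpow (by fun_prop) continuousAt_const
        (seg_slit (x := fun o : Option (Fin (n + 1)) => o.elim p e) hx hu (Finset.ne_of_mem_erase hi))
    refine h1.congr_ae ?_
    rw [uIoc_of_le zero_le_one, ← Measure.restrict_congr_set Ioo_ae_eq_Ioc]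
    filter_upwards [ae_restrict_mem measurableSet_Ioo] with u hu
    have h0' : e 0 - p ≠ 0 := slitPlane_ne_zero (slit_of_re (by rw [Complex.sub_re]; linarith))
    have h1 : e 0 - (e 0 + u * (p - e 0)) = (u : ℂ) * (e 0 - p) := by ring
    have h2 : ((u : ℂ) * (e 0 - p)) ^ (-(1 / 3) : ℂ) = (u : ℂ) ^ (-(1 / 3) : ℂ) * (e 0 - p) ^ (-(1 / 3) : ℂ) := by
      rw [real_mul_cpow hu.1 h0']
    have h3 : (e 0 - p) ^ (2 / 3 : ℂ) = (e 0 - p) * (e 0 - p) ^ (-(1 / 3) : ℂ) := by
      have h4 : (2 / 3 : ℂ) = 1 + -(1 / 3) := by norm_num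
      rw [h4, Complex.cpow_add _ _ h0', Complex.cpow_one]
    have h5 : (wt (-(1 / 3)) 0 u) = (u : ℂ) ^ (-(1 / 3) : ℂ) := by
      unfold wt
      rw [Complex.cpow_zero, mul_one]
    simp only [hG]
    unfold yl Rr
    rw [← Finset.mul_prod_erase Finset.univ _ (Finset.mem_univ (0 : Fin (n + 1))), h1, h2, h3, h5]
    ring
  have hmeas : StronglyMeasurableAtFilter G (𝓝 1) volume := by
    have h1 : ContinuousOn G (Ioi 0) := fun s hs => (hGc s hs).continuousWithinAt
    exact h1.stronglyMeasurableAtFilter isOpen_Ioi 1 (mem_Ioi.2 one_pos)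
  have hr : HasDerivAt (fun t : ℝ => ∫ s in (0 : ℝ)..t, G s) (G 1) 1 :=
    intervalIntegral.integral_hasDerivAt_right hint hmeas (hGc 1 one_pos)
  have hp1 : e 0 + ((1 : ℝ) : ℂ) * (p - e 0) = p := by
    push_cast
    ring
  have hc : HasDerivAt (fun t : ℝ => QQ a e (e 0 + t * (p - e 0))) (deriv (QQ a e) p * (p - e 0)) 1 := by
    have h1 : HasDerivAt (QQ a e) (deriv (QQ a e) p) (e 0 + ((1 : ℝ) : ℂ) * (p - e 0)) := by
      rw [hp1]
      exact hd.hasDerivAt
    have h2 : HasDerivAt (fun t : ℝ => e 0 + (t : ℂ) * (p - e 0)) (p - e 0) 1 := by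
      have h3 : HasDerivAt (fun t : ℝ => (t : ℂ)) 1 1 := Complex.ofRealCLM.hasDerivAt
      simpa using (h3.mul_const (p - e 0)).const_add (e 0)
    exact h1.comp_of_eq (1 : ℝ) h2 rfl
  have hu := hc.unique (by
    have h1 : (fun t : ℝ => QQ a e (e 0 + t * (p - e 0))) = fun t : ℝ => ∫ s in (0 : ℝ)..t, G s := funext hsub
    rw [h1]
    exact hr)
  have hG1 : G 1 = (p ^ a * yl e p) * (p - e 0) := by
    simp only [hG]
    rw [hp1]
    ring
  rw [hG1] at hu
  have hfin := mul_right_cancel₀ h0 hu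
  rw [← hfin]
  exact hd.hasDerivAt

end Pool.Agent.E8helper42.MX
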