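import Pool.Agent.E8helper42.MX.Fld
import Pool.Agent.E8helper42.MX.Q
import Pool.Agent.W924.LF.Germ

/-!
# Independence of the incomplete integrals on a fixed curve
-/

set_option autoImplicit false
set_option linter.unusedSectionVars false

open Set Filter Topology

namespace Pool.Agent.E8helper42.MX

open Pool.Agent.E8helper42.TG

variable {n : ℕ}

/-- the polynomial -/
noncomputable def fX (e : Fin (n + 1) → ℂ) : Polynomial ℂ := ∏ i, (Polynomial.X - Polynomial.C (e i))

lemma fX_deg (e : Fin (n + 1) → ℂ) : (fX e).natDegree = n + 1 := by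
  unfold fX
  rw [Polynomial.natDegree_finsetProd_X_sub_C_eq_card, Finset.card_univ, Fintype.card_fin]

lemma fX_sf {e : Fin (n + 1) → ℂ} (he : Function.Injective e) : Squarefree (fX e) := by
  have h : (fX e).Separable := Polynomial.separable_prod_X_sub_C_iff.2 he
  exact h.squarefree

lemma fX_eval (e : Fin (n + 1) → ℂ) (x : ℂ) : (fX e).eval x = ∏ i, (x - e i) := by
  unfold fX
  rw [Polynomial.eval_prod]
  simp

lemma slit_lt {e : Fin (n + 1) → ℂ} {x : ℂ} (h : ∀ i, x.re < (e i).re) (i : Fin (n + 1)) : e i - x ∈ Complex.slitPlane :=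
  slit_of_re (by rw [Complex.sub_re]; linarith [h i])

lemma yl_yy {e : Fin (n + 1) → ℂ} {x : ℂ} (h : ∀ i, x.re < (e i).re) : yl e x * yy e x = 1 := by
  unfold yl yy
  rw [← Finset.prod_mul_distrib]
  refine Finset.prod_eq_one fun i _ => ?_
  have h0 := Complex.slitPlane_ne_zero (slit_lt h i)
  rw [neg_mul_neg, ← Complex.cpow_add _ _ h0]
  norm_num

lemma yy_cube {e : Fin (n + 1) → ℂ} {x : ℂ} (h : ∀ i, x.re < (e i).re) : yy e x ^ 3 = (fX e).eval x := by
  unfold yy
  rw [fX_eval, ← Finset.prod_pow]
  refine Finset.prod_congr rfl fun i _ => ?_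
  have h0 := Complex.slitPlane_ne_zero (slit_lt h i)
  have h1 : ((e i - x) ^ (1 / 3 : ℂ)) ^ 3 = e i - x := by
    rw [← Complex.cpow_nat_mul]
    norm_num
  have h2 : (-(e i - x) ^ (1 / 3 : ℂ)) ^ 3 = -((e i - x) ^ (1 / 3 : ℂ)) ^ 3 := by ring
  rw [h2, h1]
  ring

lemma yy_an {e : Fin (n + 1) → ℂ} {x : ℂ} (h : ∀ i, x.re < (e i).re) : AnalyticAt ℂ (yy e) x := by
  unfold yy
  have h1 : ∀ i ∈ (Finset.univ : Finset (Fin (n + 1))), AnalyticAt ℂ (fun x : ℂ => -(e i - x) ^ (1 / 3 : ℂ)) x := by
    intro i _
    exact (AnalyticAt.cpow (analyticAt_const.sub analyticAt_id) analyticAt_const (slit_lt h i)).neg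
  exact Finset.analyticAt_fun_prod _ h1

/-- **independence for a fixed curve** -/
theorem QQ_ind {e : Fin (n + 1) → ℂ} (hinj : Function.Injective e) (he : ∀ i, i ≠ 0 → (e 0).re < (e i).re)
    (P : MvPolynomial (Option (Fin n)) ℂ)
    (hP : ∀ p : ℂ, p.re < (e 0).re → MvPolynomial.eval (fun o : Option (Fin n) => o.elim p fun a => QQ (a : ℕ) e p) P = 0) :
    P = 0 := by
  classical
  obtain ⟨E, _, _, D, T, hconst, hTc, hTadd, hTmul, hTder, hTinj, hTcongr⟩ := Pool.Agent.W924.LF.t_GERM ℂ
  have : CharZero E := charZero_of_injective_algebraMap (algebraMap ℂ E).injective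
  set t0 : ℂ := e 0 - 1 with ht0
  have hlt : ∀ {p : ℂ}, p.re < (e 0).re → ∀ i, p.re < (e i).re := by
    intro p hp i
    rcases eq_or_ne i 0 with h | h
    · rw [h]
      exact hp
    · exact hp.trans (he i h)
  have hopen : IsOpen {p : ℂ | p.re < (e 0).re} := isOpen_lt Complex.continuous_re continuous_const
  have ht0m : t0 ∈ {p : ℂ | p.re < (e 0).re} := by
    show t0.re < (e 0).re
    rw [ht0, Complex.sub_re, Complex.one_re]
    linarith
  -- the ring of analytic functions
  let A : Subring (ℂ → ℂ) :=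
    { carrier := {g | AnalyticAt ℂ g 0}
      mul_mem' := fun hf hg => hf.mul hg
      one_mem' := analyticAt_const
      add_mem' := fun hf hg => hf.add hg
      zero_mem' := analyticAt_const
      neg_mem' := fun hf => hf.neg }
  let Th : A →+* E :=
    { toFun := fun g => T g.1
      map_one' := by
        have := hTc 1
        rw [map_one] at this
        exact this
      map_mul' := fun g g' => hTmul g.1 g'.1 g.2 g'.2
      map_zero' := by
        have := hTc 0
        rw [map_zero] at this
        exact this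
      map_add' := fun g g' => hTadd g.1 g'.1 g.2 g'.2 }
  have hsh : ∀ g : ℂ → ℂ, AnalyticAt ℂ g t0 → AnalyticAt ℂ (fun s => g (t0 + s)) 0 := by
    intro g hg
    have h1 : AnalyticAt ℂ (fun s : ℂ => t0 + s) 0 := analyticAt_const.add analyticAt_id
    have h2 : AnalyticAt ℂ g (t0 + 0) := by rwa [add_zero]
    exact AnalyticAt.comp (g := g) (f := fun s : ℂ => t0 + s) h2 h1
  have hmap : Tendsto (fun s : ℂ => t0 + s) (𝓝 0) (𝓝 t0) := by
    have h1 : Continuous fun s : ℂ => t0 + s := by fun_prop
    have := h1.tendsto 0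
    rwa [add_zero] at this
  have hmap' : Tendsto (fun t : ℂ => t - t0) (𝓝 t0) (𝓝 0) := by
    have h1 : Continuous fun s : ℂ => s - t0 := by fun_prop
    have := h1.tendsto t0
    rwa [sub_self] at this
  set τ : E := T (fun s => t0 + s) with hτ
  set S : E := T (fun s => yy e (t0 + s)) with hS
  have hpolyan : ∀ P : Polynomial ℂ, AnalyticAt ℂ (fun s => P.eval (t0 + s)) 0 := fun P =>
    hsh _ (AnalyticOnNhd.eval_polynomial P t0 (mem_univ _))
  have hid : AnalyticAt ℂ (fun s : ℂ => t0 + s) 0 := analyticAt_const.add analyticAt_id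
  have hpoly : ∀ P : Polynomial ℂ, T (fun s => P.eval (t0 + s)) = Polynomial.aeval τ P := by
    intro P
    induction P using Polynomial.induction_on with
    | C x => simp only [Polynomial.eval_C, Polynomial.aeval_C]; exact hTc x
    | add P Q hP hQ =>
      simp only [Polynomial.eval_add, map_add]
      rw [hTadd _ _ (hpolyan P) (hpolyan Q), hP, hQ]
    | monomial n x ih =>
      have h1 : (fun s => (Polynomial.C x * Polynomial.X ^ (n + 1)).eval (t0 + s)) =
          fun s => (Polynomial.C x * Polynomial.X ^ n).eval (t0 + s) * (t0 + s) := by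
        funext s
        rw [pow_succ, ← mul_assoc, Polynomial.eval_mul, Polynomial.eval_X]
      rw [h1, hTmul _ _ (hpolyan _) hid, ih, pow_succ, ← mul_assoc, map_mul _ _ Polynomial.X, Polynomial.aeval_X]
  have hSan : AnalyticAt ℂ (fun s => yy e (t0 + s)) 0 := hsh _ (yy_an (hlt ht0m))
  have hQd : ∀ a : ℕ, ∀ p : ℂ, p.re < (e 0).re → HasDerivAt (QQ a e) (p ^ a * yl e p) p := fun a p hp =>
    QQ_deriv a hp he
  have hQan : ∀ a : ℕ, AnalyticAt ℂ (QQ a e) t0 := fun a =>
    (DifferentiableOn.analyticAt (s := {p : ℂ | p.re < (e 0).re})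
      (fun p hp => (hQd a p hp).differentiableAt.differentiableWithinAt) (hopen.mem_nhds ht0m))
  have hyan : ∀ a : ℕ, AnalyticAt ℂ (fun s => QQ a e (t0 + s)) 0 := fun a => hsh _ (hQan a)
  have hnear : ∀ᶠ s in 𝓝 (0 : ℂ), (t0 + s).re < (e 0).re := hmap.eventually (hopen.mem_nhds ht0m)
  have hdata : Data (fX e) D τ S := by
    refine ⟨?_, ?_, ?_, fX_sf hinj, by rw [fX_deg]; omega⟩
    · intro Q hQ
      rw [← hpoly] at hQ
      have h1 := hTinj _ (hpolyan Q) hQ
      have h2 : ∀ᶠ t in 𝓝 t0, Q.eval t = 0 := by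
        filter_upwards [hmap'.eventually h1] with t ht
        simpa using ht
      exact Polynomial.eq_zero_of_infinite_isRoot Q (infinite_of_mem_nhds t0 h2)
    · rw [hτ, ← hTder _ hid]
      have h1 : deriv (fun s : ℂ => t0 + s) = fun _ => 1 := by
        funext s
        simp
      rw [h1, hTc, map_one]
    · have h1 : S ^ 3 = T (fun s => yy e (t0 + s) * (yy e (t0 + s) * yy e (t0 + s))) := by
        rw [hTmul _ _ hSan (hSan.fun_mul hSan), hTmul _ _ hSan hSan]
        ring
      rw [h1, ← hpoly]
      apply hTcongr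
      filter_upwards [hnear] with s hs
      rw [← yy_cube (hlt hs)]
      ring
  let y : Fin n → E := fun i => T (fun s => QQ (i : ℕ) e (t0 + s))
  have hy : ∀ i, D (y i) * S = Polynomial.aeval τ (Polynomial.X ^ (i : ℕ) : Polynomial ℂ) := by
    intro i
    show D (T (fun s => QQ (i : ℕ) e (t0 + s))) * S = _
    rw [← hTder _ (hyan i), hS, ← hTmul _ _ (hyan i).deriv hSan, ← hpoly]
    apply hTcongr
    filter_upwards [hnear] with s hs
    have h1 : HasDerivAt (fun s => QQ (i : ℕ) e (t0 + s)) ((t0 + s) ^ (i : ℕ) * yl e (t0 + s)) s :=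
      (hQd i (t0 + s) hs).comp_const_add t0 s
    rw [h1.deriv, mul_assoc, yl_yy (hlt hs), mul_one, Polynomial.eval_pow, Polynomial.eval_X]
  have hind := indep hdata hconst n (by rw [fX_deg]) y hy
  -- the relation
  have hrel : MvPolynomial.aeval (fun o : Option (Fin n) => o.elim τ y) P = 0 := by
    let Y : Option (Fin n) → A := fun o => o.elim ⟨fun s => t0 + s, hid⟩ fun a => ⟨fun s => QQ (a : ℕ) e (t0 + s), hyan a⟩
    let cA : ℂ →+* A :=
      { toFun := fun c => ⟨fun _ => c, analyticAt_const⟩
        map_one' := rfl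
        map_mul' := fun _ _ => rfl
        map_zero' := rfl
        map_add' := fun _ _ => rfl }
    have h1 : Th.comp (MvPolynomial.eval₂Hom cA Y) =
        (MvPolynomial.aeval (R := ℂ) (fun o : Option (Fin n) => o.elim τ y)).toRingHom := by
      refine MvPolynomial.ringHom_ext ?_ ?_
      · intro c
        simp only [RingHom.coe_comp, Function.comp_apply, MvPolynomial.coe_eval₂Hom, MvPolynomial.eval₂_C,
          AlgHom.toRingHom_eq_coe, RingHom.coe_coe, MvPolynomial.aeval_C]
        exact hTc c
      · intro o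
        simp only [RingHom.coe_comp, Function.comp_apply, MvPolynomial.coe_eval₂Hom, MvPolynomial.eval₂_X,
          AlgHom.toRingHom_eq_coe, RingHom.coe_coe, MvPolynomial.aeval_X]
        rcases o with _ | a
        · rfl
        · rfl
    have h2 := RingHom.congr_fun h1 P
    have h3 : (MvPolynomial.aeval (R := ℂ) (fun o : Option (Fin n) => o.elim τ y)).toRingHom P =
      MvPolynomial.aeval (fun o : Option (Fin n) => o.elim τ y) P := rfl
    rw [← h3, ← h2]
    show T ((MvPolynomial.eval₂Hom cA Y P : A) : ℂ → ℂ) = 0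
    have h4 : ((MvPolynomial.eval₂Hom cA Y P : A) : ℂ → ℂ) =
        fun s => MvPolynomial.eval (fun o : Option (Fin n) => o.elim (t0 + s) fun a => QQ (a : ℕ) e (t0 + s)) P := by
      funext s
      let ev : A →+* ℂ := (Pi.evalRingHom (fun _ : ℂ => ℂ) s).comp A.subtype
      have h5 : ev.comp (MvPolynomial.eval₂Hom cA Y) =
          MvPolynomial.eval (fun o : Option (Fin n) => o.elim (t0 + s) fun a => QQ (a : ℕ) e (t0 + s)) := by
        refine MvPolynomial.ringHom_ext ?_ ?_
        · intro c
          simp only [RingHom.coe_comp, Function.comp_apply, MvPolynomial.coe_eval₂Hom, MvPolynomial.eval₂_C,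
            MvPolynomial.eval_C]
          rfl
        · intro o
          simp only [RingHom.coe_comp, Function.comp_apply, MvPolynomial.coe_eval₂Hom, MvPolynomial.eval₂_X,
            MvPolynomial.eval_X]
          rcases o with _ | a
          · rfl
          · rfl
      exact RingHom.congr_fun h5 P
    rw [h4]
    have h5 := hTc 0
    rw [map_zero] at h5
    rw [← h5]
    apply hTcongr
    filter_upwards [hnear] with s hs
    exact hP _ hs
  -- conclusion
  let F := Fd hdata
  let φ : Polynomial ℂ →+* F :=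
    { toFun := fun p => ⟨Polynomial.aeval τ p, poly_mem hdata p⟩
      map_one' := Subtype.ext (by simp)
      map_mul' := fun p q => Subtype.ext (by simp)
      map_zero' := Subtype.ext (by simp)
      map_add' := fun p q => Subtype.ext (by simp) }
  have hφ : Function.Injective φ := by
    rw [injective_iff_map_eq_zero]
    intro p hp
    exact hdata.tr p (congrArg Subtype.val hp)
  have h1 : (MvPolynomial.aeval (R := F) y).toRingHom.comp
      ((MvPolynomial.map φ).comp (MvPolynomial.optionEquivRight ℂ (Fin n)).toRingEquiv.toRingHom) =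
        (MvPolynomial.aeval (R := ℂ) (fun o : Option (Fin n) => o.elim τ y)).toRingHom := by
    refine MvPolynomial.ringHom_ext ?_ ?_
    · intro c
      change MvPolynomial.aeval y (MvPolynomial.map φ (MvPolynomial.optionEquivRight ℂ (Fin n) (MvPolynomial.C c))) =
        MvPolynomial.aeval (R := ℂ) (fun o : Option (Fin n) => o.elim τ y) (MvPolynomial.C c)
      rw [MvPolynomial.optionEquivRight_C, MvPolynomial.map_C, MvPolynomial.aeval_C, MvPolynomial.aeval_C]
      change Polynomial.aeval τ (Polynomial.C c) = _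
      rw [Polynomial.aeval_C]
    · intro o
      change MvPolynomial.aeval y (MvPolynomial.map φ (MvPolynomial.optionEquivRight ℂ (Fin n) (MvPolynomial.X o))) =
        MvPolynomial.aeval (R := ℂ) (fun o : Option (Fin n) => o.elim τ y) (MvPolynomial.X o)
      rcases o with _ | a
      · rw [MvPolynomial.optionEquivRight_X_none, MvPolynomial.map_C, MvPolynomial.aeval_C, MvPolynomial.aeval_X]
        change Polynomial.aeval τ (Polynomial.X : Polynomial ℂ) = _
        rw [Polynomial.aeval_X]
        rfl
      · rw [MvPolynomial.optionEquivRight_X_some, MvPolynomial.map_X, MvPolynomial.aeval_X, MvPolynomial.aeval_X]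
        rfl
  have h2 := RingHom.congr_fun h1 P
  have h3 : (MvPolynomial.aeval (R := ℂ) (fun o : Option (Fin n) => o.elim τ y)).toRingHom P = 0 := hrel
  rw [h3] at h2
  have h4 : MvPolynomial.map φ (MvPolynomial.optionEquivRight ℂ (Fin n) P) = 0 :=
    hind.eq_zero_of_aeval_eq_zero _ h2
  have h5 : MvPolynomial.optionEquivRight ℂ (Fin n) P = 0 :=
    MvPolynomial.map_injective φ hφ (h4.trans (map_zero _).symm)
  exact (MvPolynomial.optionEquivRight ℂ (Fin n)).injective (h5.trans (map_zero _).symm)

end Pool.Agent.E8helper42.MX
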