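import Pool.Agent.E8helper42.MX.Pull
import Pool.Agent.E8helper42.MX.QInd
import Pool.Agent.Y890.MV.Main

/-!
# The periods of the relative curves: functional independence
-/

set_option autoImplicit false
set_option linter.unusedSectionVars false

open Set Filter Topology

namespace Pool.Agent.E8helper42.MX

open Pool.Agent.E8helper42.TG Pool.Agent.Y119.PLM
open Pool.Agent.Y890.HE (Ord)

variable {κ : Type} {n m : κ → ℕ}

/-- the branch points and the marked points -/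
abbrev Ps (n m : κ → ℕ) : Type := (Σ j : κ, Fin (n j + 1)) ⊕ Σ j : κ, Fin (m j)

/-- the indices of all functions: the points, the periods, the incomplete integrals -/
abbrev Nb (n m : κ → ℕ) : Type := Ps n m ⊕ ((Σ j : κ, Fin (n j) × Fin (n j)) ⊕ Σ j : κ, Fin (m j) × Fin (n j))

/-- the region -/
def RG (n m : κ → ℕ) : Set (Ps n m → ℂ) :=
  {x | (∀ j (i k : Fin (n j + 1)), i < k → (x (Sum.inl ⟨j, i⟩)).re < (x (Sum.inl ⟨j, k⟩)).re) ∧
    ∀ j (k : Fin (m j)), (x (Sum.inr ⟨j, k⟩)).re < (x (Sum.inl ⟨j, 0⟩)).re}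

/-- the functions -/
noncomputable def vl (x : Ps n m → ℂ) (o : Nb n m) : ℂ :=
  match o with
  | Sum.inl p => x p
  | Sum.inr (Sum.inl i) => Pm (fun k => x (Sum.inl ⟨i.1, k⟩)) i.2.1 i.2.2
  | Sum.inr (Sum.inr i) => QQ (i.2.2 : ℕ) (fun k => x (Sum.inl ⟨i.1, k⟩)) (x (Sum.inr ⟨i.1, i.2.1⟩))

variable [Fintype κ] [DecidableEq κ]

/-- the independent functions -/
abbrev Tb (n m : κ → ℕ) : Type := (Σ i : (Σ j : κ, Fin (m j)), Option (Fin (n i.1))) ⊕ (Rx n ⊕ XX n)

/-- their names -/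
def nmb (t : Tb n m) : Nb n m :=
  match t with
  | Sum.inl ⟨i, none⟩ => Sum.inl (Sum.inr i)
  | Sum.inl ⟨i, some a⟩ => Sum.inr (Sum.inr ⟨i.1, i.2, a⟩)
  | Sum.inr (Sum.inl i) => Sum.inr (Sum.inl i.1)
  | Sum.inr (Sum.inr i) => Sum.inl (Sum.inl i)

lemma nmb_inj : Function.Injective (nmb (n := n) (m := m)) := by
  intro s t h
  rcases s with ⟨⟨j, k⟩, _ | a⟩ | i | i <;> rcases t with ⟨⟨j', k'⟩, _ | a'⟩ | i' | i' <;>
    simp only [nmb, Sum.inl.injEq, Sum.inr.injEq, reduceCtorEq] at h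
  · cases h
    rfl
  · cases h
    rfl
  · rw [Subtype.val_injective h]
  · rw [h]

lemma RG_open : IsOpen (RG n m) := by
  have h : RG n m = (⋂ j, ⋂ i : Fin (n j + 1), ⋂ k : Fin (n j + 1), {x : Ps n m → ℂ | i < k →
      (x (Sum.inl ⟨j, i⟩)).re < (x (Sum.inl ⟨j, k⟩)).re}) ∩
      ⋂ j, ⋂ k : Fin (m j), {x : Ps n m → ℂ | (x (Sum.inr ⟨j, k⟩)).re < (x (Sum.inl ⟨j, 0⟩)).re} := by
    ext x
    simp [RG]
  rw [h]
  refine IsOpen.inter ?_ ?_
  · refine isOpen_iInter_of_finite fun j => isOpen_iInter_of_finite fun i => isOpen_iInter_of_finite fun k => ?_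
    by_cases hik : i < k
    · simp only [hik, forall_const]
      exact isOpen_lt (by fun_prop) (by fun_prop)
    · simp [hik]
  · refine isOpen_iInter_of_finite fun j => isOpen_iInter_of_finite fun k => ?_
    exact isOpen_lt (by fun_prop) (by fun_prop)

lemma RG_convex : Convex ℝ (RG n m) := by
  intro x hx y hy a b ha hb hab
  have key : ∀ p q : Ps n m, (x p).re < (x q).re → (y p).re < (y q).re →
      ((a • x + b • y) p).re < ((a • x + b • y) q).re := by
    intro p q h1 h2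
    simp only [Pi.add_apply, Pi.smul_apply, Complex.add_re, Complex.real_smul, Complex.re_ofReal_mul]
    rcases eq_or_lt_of_le ha with h | h
    · have hb1 : b = 1 := by linarith
      rw [← h, hb1]
      linarith
    · nlinarith [mul_lt_mul_of_pos_left h1 h, mul_le_mul_of_nonneg_left h2.le hb]
  exact ⟨fun j i k hik => key _ _ (hx.1 j i k hik) (hy.1 j i k hik), fun j k => key _ _ (hx.2 j k) (hy.2 j k)⟩

lemma RG_base {x : Ps n m → ℂ} (hx : x ∈ RG n m) : (fun i => x (Sum.inl i) : XX n → ℂ) ∈ UU n := fun j => hx.1 j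

lemma vl_an (o : Nb n m) : AnalyticOnNhd ℂ (fun x => vl x o) (RG n m) := by
  intro x hx
  have hc : ∀ p : Ps n m, AnalyticAt ℂ (fun x : Ps n m → ℂ => x p) x := fun p =>
    (ContinuousLinearMap.proj (R := ℂ) (φ := fun _ : Ps n m => ℂ) p).analyticAt x
  rcases o with p | i | i
  · exact hc p
  · refine AnalyticAt.fun_comp (g := fun y : XX n → ℂ => YY y i.1 i.2.1 i.2.2)
      (f := fun x : Ps n m → ℂ => fun k => x (Sum.inl k)) (YY_an i.1 i.2.1 i.2.2 _ (RG_base hx)) ?_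
    exact analyticAt_pi_iff.2 fun k => hc _
  · refine AnalyticAt.fun_comp (g := fun y : Option (Fin (n i.1 + 1)) → ℂ =>
      QQ (i.2.2 : ℕ) (fun k => y (some k)) (y none))
      (f := fun x : Ps n m → ℂ => fun o => o.elim (x (Sum.inr ⟨i.1, i.2.1⟩)) fun k => x (Sum.inl ⟨i.1, k⟩))
      (QQ_an (i.2.2 : ℕ) _ ⟨hx.2 _ _, fun k hk => hx.1 _ _ _ (Fin.pos_of_ne_zero hk)⟩) ?_
    refine analyticAt_pi_iff.2 fun o => ?_
    rcases o with _ | k
    · exact hc _
    · exact hc _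

/-- **functional independence** -/
theorem vl_ind (hn : ∀ j, ¬ 3 ∣ n j + 1) : Ind (RG n m) (fun (t : Tb n m) x => vl x (nmb t)) := by
  classical
  -- the fibres
  have hf : ∀ b ∈ UU n, Ind {x : Ps n m → ℂ | x ∈ RG n m ∧ (fun i => x (Sum.inl i)) = b}
      (fun (t : Σ i : (Σ j : κ, Fin (m j)), Option (Fin (n i.1))) x =>
        t.2.elim (x (Sum.inr t.1)) fun a => QQ (a : ℕ) (fun k => x (Sum.inl ⟨t.1.1, k⟩)) (x (Sum.inr t.1))) := by
    intro b hb
    have h1 := Ind.pi (ι := Σ j : κ, Fin (m j)) (σ := fun i => Option (Fin (n i.1)))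
      (S := fun i => {p : ℂ | p.re < (b ⟨i.1, 0⟩).re})
      (g := fun i o p => o.elim p fun a => QQ (a : ℕ) (br b i.1) p) (fun i P hP => by
        refine QQ_ind (e := br b i.1) ?_ (fun k hk => hb i.1 0 k (Fin.pos_of_ne_zero hk)) P fun p hp => hP p hp
        intro k l hkl
        by_contra hne
        rcases lt_or_gt_of_ne hne with h | h
        · have h2 := hb i.1 k l h
          rw [hkl] at h2
          exact lt_irrefl _ h2
        · have h2 := hb i.1 l k h
          rw [hkl] at h2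
          exact lt_irrefl _ h2)
    have h2 := Ind.of_map (S := {x : Ps n m → ℂ | x ∈ RG n m ∧ (fun i => x (Sum.inl i)) = b})
      (π := fun x : Ps n m → ℂ => fun i : (Σ j : κ, Fin (m j)) => x (Sum.inr i)) h1 (fun p hp =>
        ⟨Sum.elim b p, ⟨⟨fun j => hb j, fun j k => hp ⟨j, k⟩⟩, rfl⟩, rfl⟩)
    refine h2.congr ?_
    rintro x ⟨hx, rfl⟩ ⟨i, o⟩
    rfl
  have h1 := Ind.fibre (S := RG n m) (π := fun x : Ps n m → ℂ => (fun i => x (Sum.inl i) : XX n → ℂ)) (per_ind hn) hf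
  refine h1.congr ?_
  intro x hx t
  rcases t with ⟨i, _ | a⟩ | i | i <;> rfl

lemma card_Rx : ∑ j, ((n j) ^ 2 - 1) ≤ Fintype.card (Rx n) := by
  classical
  let eqv : Rx n ≃ Σ j : κ, {p : Fin (n j) × Fin (n j) // ¬ ((p.1 : ℕ) = 0 ∧ (p.2 : ℕ) = 0)} :=
    { toFun := fun i => ⟨i.1.1, ⟨i.1.2, i.2⟩⟩
      invFun := fun s => ⟨⟨s.1, s.2.1⟩, s.2.2⟩
      left_inv := fun _ => rfl
      right_inv := fun _ => rfl }
  rw [Fintype.card_congr eqv, Fintype.card_sigma]
  refine Finset.sum_le_sum fun j _ => ?_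
  rw [Fintype.card_subtype_compl, Fintype.card_prod, Fintype.card_fin, ← pow_two]
  have h1 : Fintype.card {p : Fin (n j) × Fin (n j) // (p.1 : ℕ) = 0 ∧ (p.2 : ℕ) = 0} ≤ 1 := by
    rw [Fintype.card_le_one_iff_subsingleton]
    refine ⟨fun p q => ?_⟩
    obtain ⟨⟨a, b⟩, ha, hb⟩ := p
    obtain ⟨⟨c, d⟩, hc, hd⟩ := q
    apply Subtype.ext
    refine Prod.ext (Fin.ext ?_) (Fin.ext ?_)
    · exact ha.trans hc.symm
    · exact hb.trans hd.symm
  omega

lemma card_Tb : ∑ j, ((n j) ^ 2 - 1 + m j * n j) + Fintype.card (Ps n m) ≤ Fintype.card (Tb n m) := by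
  have h1 := card_Rx (n := n)
  have h2 : Fintype.card (Σ i : (Σ j : κ, Fin (m j)), Option (Fin (n i.1))) = ∑ j, m j * (n j + 1) := by
    rw [Fintype.card_sigma, Fintype.sum_sigma]
    refine Finset.sum_congr rfl fun j _ => ?_
    simp
  rw [Fintype.card_sum, Fintype.card_sum, h2, Fintype.card_sum, Fintype.card_sigma, Fintype.card_sigma]
  simp only [Fintype.card_fin, mul_add, mul_one, Finset.sum_add_distrib]
  omega

/-- **independence over `ℂ(z)`** -/
theorem exists_choice (hn : ∀ j, ¬ 3 ∣ n j + 1) {V : Set (Ps n m → ℂ)} {h : (Ps n m → ℂ) → Ps n m → ℂ}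
    (hV : IsPreconnected V) (hVo : IsOpen V) (hh : ∀ p, AnalyticOnNhd ℂ (fun z => h z p) V)
    (hm : ∀ z ∈ V, h z ∈ RG n m) (hi : (interior (h '' V)).Nonempty) :
    ∃ e : Fin (∑ j, ((n j) ^ 2 - 1 + m j * n j)) → Nb n m, Function.Injective e ∧
      ∀ t ∈ V, Y890.MV.LocIndM (fun i z => vl (h z) (e i)) t := by
  classical
  have hne : V.Nonempty := by
    obtain ⟨x, hx⟩ := hi
    obtain ⟨z, hz, -⟩ := interior_subset hx
    exact ⟨z, hz⟩
  have hind : Ind V (fun (t : Tb n m) z => vl (h z) (nmb t)) := by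
    intro P hP
    apply vl_ind hn P
    obtain ⟨x0, hx0⟩ := hi
    have hx0R : x0 ∈ RG n m := by
      obtain ⟨z, hz, rfl⟩ := interior_subset hx0
      exact hm z hz
    have han : AnalyticOnNhd ℂ (fun x => MvPolynomial.eval (fun t : Tb n m => vl x (nmb t)) P) (RG n m) := by
      have h1 := Y890.MV.evM_an (X := Ps n m) (f := fun (t : Tb n m) x => vl x (nmb t)) (fun t => vl_an (nmb t))
        (MvPolynomial.map MvPolynomial.C P)
      have h2 : (fun x => Y890.MV.evM (fun (t : Tb n m) x => vl x (nmb t)) x (MvPolynomial.map MvPolynomial.C P)) =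
          fun x => MvPolynomial.eval (fun t : Tb n m => vl x (nmb t)) P := by
        funext x
        unfold Y890.MV.evM
        rw [MvPolynomial.eval₂_map]
        have h3 : (MvPolynomial.eval x).comp (MvPolynomial.C (σ := Ps n m)) = RingHom.id ℂ := by
          ext c
          simp
        rw [h3, MvPolynomial.eval₂_id]
      rw [h2] at h1
      exact h1
    refine han.eqOn_zero_of_preconnected_of_eventuallyEq_zero RG_convex.isPreconnected hx0R ?_
    filter_upwards [mem_interior_iff_mem_nhds.1 hx0] with x hx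
    obtain ⟨z, hz, rfl⟩ := hx
    exact hP z hz
  have hG : ∀ t : Tb n m, AnalyticOnNhd ℂ (fun z => vl (h z) (nmb t)) V := by
    intro t z hz
    exact AnalyticAt.fun_comp (g := fun x => vl x (nmb t)) (f := h) (vl_an (nmb t) _ (hm z hz))
      (analyticAt_pi_iff.2 fun p => hh p z hz)
  obtain ⟨ι, hι, hL⟩ := exists_sub hV hVo hne hG hind (∑ j, ((n j) ^ 2 - 1 + m j * n j)) card_Tb
  exact ⟨fun i => nmb (ι i), nmb_inj.comp hι, hL⟩

end Pool.Agent.E8helper42.MX
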