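import Pool.Agent.E8helper42.TG.Cube

/-!
# Independent families of functions
-/

set_option autoImplicit false
set_option linter.unusedSectionVars false

open Set Filter Topology

namespace Pool.Agent.E8helper42.MX

open Pool.Agent.E8helper42.TG Pool.Agent.Y119.PLM
open Pool.Agent.Y890.HE (Ord)

/-- the functions `f i` on `S` are algebraically independent over `ℂ` -/
def Ind {A σ : Type} (S : Set A) (f : σ → A → ℂ) : Prop :=
  ∀ P : MvPolynomial σ ℂ, (∀ a ∈ S, MvPolynomial.eval (fun i => f i a) P = 0) → P = 0

/-- substitution of numbers for some of the variables -/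
lemma eval_part {σ τ : Type} (g : σ → MvPolynomial τ ℂ) (z : τ → ℂ) (P : MvPolynomial σ ℂ) :
    MvPolynomial.eval z (MvPolynomial.aeval g P) = MvPolynomial.eval (fun i => MvPolynomial.eval z (g i)) P := by
  have h : (MvPolynomial.eval z).comp (MvPolynomial.aeval (R := ℂ) g).toRingHom =
      MvPolynomial.eval (fun i => MvPolynomial.eval z (g i)) := by
    refine MvPolynomial.ringHom_ext ?_ ?_
    · intro c
      simp
    · intro i
      simp
  exact RingHom.congr_fun h P

/-- functions on the base and functions which are independent on every fibre -/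
theorem Ind.fibre {A B σ τ : Type} {S : Set A} {T : Set B} {π : A → B} {f : σ → A → ℂ} {g : τ → B → ℂ}
    (hg : Ind T g) (hf : ∀ b ∈ T, Ind {a | a ∈ S ∧ π a = b} f) :
    Ind S (Sum.elim f fun i a => g i (π a)) := by
  intro P hP
  have h1 : ∀ b ∈ T, ∀ z : σ → ℂ, MvPolynomial.eval (Sum.elim z fun i => g i b) P = 0 := by
    intro b hb z
    have h2 : MvPolynomial.aeval (Sum.elim MvPolynomial.X fun i => MvPolynomial.C (g i b)) P = 0 := by
      apply hf b hb
      rintro a ⟨ha, rfl⟩
      rw [eval_part]
      have h3 := hP a ha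
      rw [← h3]
      congr 2
      funext o
      rcases o with i | i <;> simp
    have h3 := congrArg (MvPolynomial.eval z) h2
    rw [eval_part, map_zero] at h3
    rw [← h3]
    congr 2
    funext o
    rcases o with i | i <;> simp
  apply MvPolynomial.funext
  intro x
  rw [map_zero]
  have h2 : MvPolynomial.aeval (Sum.elim (fun i => MvPolynomial.C (x (Sum.inl i))) MvPolynomial.X) P = 0 := by
    apply hg
    intro b hb
    rw [eval_part]
    have h3 := h1 b hb (fun i => x (Sum.inl i))
    rw [← h3]
    congr 2
    funext o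
    rcases o with i | i <;> simp
  have h3 := congrArg (MvPolynomial.eval fun i => x (Sum.inr i)) h2
  rw [eval_part, map_zero] at h3
  rw [← h3]
  congr 2
  funext o
  rcases o with i | i <;> simp

/-- functions of different variables -/
theorem Ind.pi {ι : Type} [Fintype ι] [DecidableEq ι] {σ : ι → Type} {S : ι → Set ℂ} {g : ∀ i, σ i → ℂ → ℂ}
    (hg : ∀ i, Ind (S i) (g i)) :
    Ind {p : ι → ℂ | ∀ i, p i ∈ S i} (fun (s : Σ i, σ i) p => g s.1 s.2 (p s.1)) := by
  classical
  intro P hP
  have key : ∀ s : Finset ι, ∀ (p : ι → ℂ), (∀ i, p i ∈ S i) → ∀ y : (Σ i, σ i) → ℂ,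
      MvPolynomial.eval (fun t : Σ i, σ i => if t.1 ∈ s then y t else g t.1 t.2 (p t.1)) P = 0 := by
    intro s
    induction s using Finset.induction_on with
    | empty =>
      intro p hp y
      simpa using hP p hp
    | insert j s hj ih =>
      intro p hp y
      have h2 : MvPolynomial.aeval (fun t : Σ i, σ i => if h : t.1 = j then MvPolynomial.X (h ▸ t.2 : σ j)
          else if t.1 ∈ s then MvPolynomial.C (y t) else MvPolynomial.C (g t.1 t.2 (p t.1))) P = 0 := by
        apply hg j
        intro a ha
        rw [eval_part]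
        have h3 := ih (Function.update p j a) (fun i => by
          by_cases h : i = j
          · subst h
            rwa [Function.update_self]
          · rw [Function.update_of_ne h]
            exact hp i) y
        rw [← h3]
        congr 2
        funext t
        obtain ⟨i, t⟩ := t
        by_cases h : i = j
        · subst h
          simp [hj]
        · simp only [h, dite_false]
          by_cases h' : i ∈ s
          · simp [h']
          · simp [h', Function.update_of_ne h]
      have h3 := congrArg (MvPolynomial.eval fun t : σ j => y ⟨j, t⟩) h2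
      rw [eval_part, map_zero] at h3
      rw [← h3]
      congr 2
      funext t
      obtain ⟨i, t⟩ := t
      by_cases h : i = j
      · subst h
        simp
      · simp only [h, dite_false, Finset.mem_insert, false_or]
        by_cases h' : i ∈ s
        · simp [h']
        · simp [h']
  apply MvPolynomial.funext
  intro y
  rw [map_zero]
  by_cases hne : ∀ i, (S i).Nonempty
  · choose p hp using hne
    have h1 := key Finset.univ p hp y
    simpa using h1
  · push Not at hne
    obtain ⟨i, hi⟩ := hne
    have h1 := hg i 1 (fun a ha => by rw [hi] at ha; exact absurd ha (notMem_empty a))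
    exact absurd h1 one_ne_zero

/-- restriction to a set of indices, change of the names -/
theorem Ind.comp {A σ τ : Type} {S : Set A} {f : σ → A → ℂ} (h : Ind S f) {e : τ → σ} (he : Function.Injective e) :
    Ind S (fun i => f (e i)) := by
  intro P hP
  have h1 : MvPolynomial.rename e P = 0 := by
    apply h
    intro a ha
    rw [MvPolynomial.eval_rename]
    exact hP a ha
  exact MvPolynomial.rename_injective e he (h1.trans (map_zero _).symm)

theorem Ind.mono {A σ : Type} {S T : Set A} {f : σ → A → ℂ} (h : Ind S f) (hST : S ⊆ T) : Ind T f :=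
  fun P hP => h P fun a ha => hP a (hST ha)

theorem Ind.congr {A σ : Type} {S : Set A} {f g : σ → A → ℂ} (h : Ind S f) (hfg : ∀ a ∈ S, ∀ i, f i a = g i a) :
    Ind S g := by
  intro P hP
  apply h
  intro a ha
  have h1 : (fun i => f i a) = fun i => g i a := funext fun i => hfg a ha i
  rw [h1]
  exact hP a ha

/-- composition with a map -/
theorem Ind.of_map {A B σ : Type} {S : Set A} {T : Set B} {f : σ → B → ℂ} {π : A → B} (h : Ind T f)
    (hT : ∀ b ∈ T, ∃ a ∈ S, π a = b) : Ind S (fun i a => f i (π a)) := by
  intro P hP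
  apply h
  intro b hb
  obtain ⟨a, ha, rfl⟩ := hT b hb
  exact hP a ha

/-! ## The entries of matrices with given determinant -/

/-- one entry is determined by the others -/
lemma exists_entry {m : ℕ} (A Y : Matrix (Fin m) (Fin m) ℂ) :
    ∀ᶠ t : ℂ in 𝓝[≠] 0, ∃ A' : Matrix (Fin m) (Fin m) ℂ,
      (∀ a b : Fin m, ¬ ((a : ℕ) = 0 ∧ (b : ℕ) = 0) → A' a b = A a b + t * (if a = b then 1 else 0)) ∧
        A'.det = Y.det := by
  rcases m with _ | k
  · refine Eventually.of_forall fun t => ⟨A, fun a => a.elim0, ?_⟩
    rw [Matrix.det_isEmpty, Matrix.det_isEmpty]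
  · set M : Matrix (Fin k) (Fin k) ℂ := A.submatrix Fin.succ Fin.succ with hM
    have h0 : ((-M).charpoly).rootSet ℂ = (((-M).charpoly).rootSet ℂ) := rfl
    have hfin : {t : ℂ | ((-M).charpoly).eval t = 0}.Finite :=
      Polynomial.finite_setOf_isRoot (Matrix.charpoly_monic (-M)).ne_zero
    have h1 : ∀ᶠ t : ℂ in 𝓝[≠] 0, t ∉ {t : ℂ | ((-M).charpoly).eval t = 0} \ {0} := by
      have h2 : IsClosed ({t : ℂ | ((-M).charpoly).eval t = 0} \ {0}) := (hfin.subset diff_subset).isClosed
      exact mem_nhdsWithin_of_mem_nhds (h2.isOpen_compl.mem_nhds (by simp))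
    filter_upwards [h1, self_mem_nhdsWithin] with t ht ht0
    have h3 : ((-M).charpoly).eval t ≠ 0 := fun h => ht ⟨h, ht0⟩
    rw [Matrix.eval_charpoly] at h3
    have h4 : (Matrix.scalar (Fin k) t - -M) = M + t • (1 : Matrix (Fin k) (Fin k) ℂ) := by
      rw [sub_neg_eq_add, add_comm, Matrix.scalar_apply, ← Matrix.smul_one_eq_diagonal]
    rw [h4] at h3
    set N : Matrix (Fin (k + 1)) (Fin (k + 1)) ℂ := A + t • 1 with hN
    have h5 : N.submatrix Fin.succ Fin.succ = M + t • (1 : Matrix (Fin k) (Fin k) ℂ) := by
      ext a b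
      simp [hN, hM, Matrix.one_apply]
    set D := (N.submatrix Fin.succ Fin.succ).det with hD
    have hD0 : D ≠ 0 := by
      rw [hD, h5]
      exact h3
    set r : ℂ := N.det - N 0 0 * D with hr
    refine ⟨N.updateRow 0 (Function.update (N 0) 0 ((Y.det - r) / D)), ?_, ?_⟩
    · intro a b hab
      by_cases ha : a = 0
      · subst ha
        have hb : b ≠ 0 := fun h => hab ⟨rfl, by rw [h]; rfl⟩
        rw [Matrix.updateRow_self, Function.update_of_ne hb, hN]
        simp [Matrix.one_apply]
      · rw [Matrix.updateRow_ne ha, hN]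
        simp [Matrix.one_apply]
    · have hexp : ∀ c : ℂ, (N.updateRow 0 (Function.update (N 0) 0 c)).det = c * D + r := by
        intro c
        have e1 : Function.update (N 0) 0 c = N 0 + (c - N 0 0) • (Pi.single 0 1 : Fin (k + 1) → ℂ) := by
          funext b
          by_cases hb : b = 0
          · subst hb
            simp
          · simp [hb]
        rw [e1, Matrix.det_updateRow_add, Matrix.det_updateRow_smul, Matrix.updateRow_eq_self]
        have e2 : (N.updateRow 0 (Pi.single 0 1 : Fin (k + 1) → ℂ)).det = D := by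
          rw [Matrix.det_succ_row_zero, Finset.sum_eq_single 0]
          · simp only [Fin.val_zero, pow_zero, one_mul, Matrix.updateRow_self, Pi.single_eq_same]
            rw [hD]
            congr 1
          · intro b _ hb
            rw [Matrix.updateRow_self, Pi.single_eq_of_ne hb]
            ring
          · intro h
            exact absurd (Finset.mem_univ _) h
        rw [e2, hr]
        ring
      rw [hexp]
      field_simp
      ring

variable {κ : Type} [Fintype κ] [DecidableEq κ] {n : κ → ℕ}

/-- all entries of the matrices but one for each of them -/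
abbrev Rx (n : κ → ℕ) : Type := {i : Ix n // ¬ ((i.2.1 : ℕ) = 0 ∧ (i.2.2 : ℕ) = 0)}

/-- the polynomial as a polynomial in all entries -/
noncomputable def lft (P : MvPolynomial (Rx n ⊕ XX n) ℂ) : MvPolynomial (Ix n) (MvPolynomial (XX n) ℂ) :=
  MvPolynomial.eval₂ (MvPolynomial.C.comp MvPolynomial.C)
    (Sum.elim (fun i => MvPolynomial.X i.1) fun i => MvPolynomial.C (MvPolynomial.X i)) P

lemma vt_lft (P : MvPolynomial (Rx n ⊕ XX n) ℂ) (x : XX n → ℂ) (A : MT n) :
    vt (lft P) x A = MvPolynomial.eval (Sum.elim (fun i => A i.1.1 i.1.2.1 i.1.2.2) x) P := by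
  unfold vt lft
  rw [← MvPolynomial.coe_eval₂Hom (MvPolynomial.eval x), MvPolynomial.hom_eval₂]
  have h1 : ((MvPolynomial.eval₂Hom (MvPolynomial.eval x) fun i : Ix n => A i.1 i.2.1 i.2.2).comp
      (MvPolynomial.C.comp MvPolynomial.C)) = RingHom.id ℂ := by
    ext c <;> simp
  rw [h1, MvPolynomial.eval₂_id]
  congr 2
  funext o
  rcases o with i | i <;> simp

lemma YY_det_ne {x : XX n → ℂ} (hx : x ∈ UU n) (j : κ) : (YY x j).det ≠ 0 := by
  obtain ⟨c, hc, h⟩ := det_cube (n j)
  have h1 := h (br x j) (hx j)
  intro h0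
  have h2 : (Pm (br x j)).det = 0 := h0
  rw [h2, zero_pow three_ne_zero] at h1
  have h3 := h1.symm
  rw [mul_eq_zero] at h3
  rcases h3 with h3 | h3
  · exact hc h3
  · rw [Finset.prod_eq_zero_iff] at h3
    obtain ⟨i, -, h3⟩ := h3
    rw [Finset.prod_eq_zero_iff] at h3
    obtain ⟨k, hk, h3⟩ := h3
    have h4 := hx j i k (Finset.mem_Ioi.1 hk)
    rw [sub_eq_zero.1 h3] at h4
    exact lt_irrefl _ h4

/-- **the entries of the period matrices but one for each curve are independent, and independent of the branch
points** -/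
theorem per_ind (hn : ∀ j, ¬ 3 ∣ n j + 1) :
    Ind (UU n) (Sum.elim (fun (i : Rx n) (x : XX n → ℂ) => YY x i.1.1 i.1.2.1 i.1.2.2) fun (i : XX n) x => x i) := by
  intro P hP
  have h1 : ∀ x ∈ UU n, ∀ A : MT n, (∀ j, (A j).det = (YY x j).det) →
      MvPolynomial.eval (Sum.elim (fun i : Rx n => A i.1.1 i.1.2.1 i.1.2.2) x) P = 0 := by
    intro x hx A hA
    set g : MT n := fun j => (YY x j)⁻¹ * A j with hg
    have h2 : ∀ j, IsUnit (YY x j).det := fun j => isUnit_iff_ne_zero.2 (YY_det_ne hx j)
    have h3 : ∀ j, (g j).det = 1 := by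
      intro j
      rw [hg]
      simp only
      rw [Matrix.det_mul, Matrix.det_nonsing_inv, hA j]
      exact Ring.inverse_mul_cancel _ (h2 j)
    have h4 := prod_gal hn g h3 (lft P) (fun y hy => by
      rw [vt_lft]
      have h5 := hP y hy
      rw [← h5]
      congr 2
      funext o
      rcases o with i | i <;> rfl) x hx
    have h5 : YY x * g = A := by
      funext j
      rw [Pi.mul_apply, hg]
      simp only
      rw [← Matrix.mul_assoc, Matrix.mul_nonsing_inv _ (h2 j), Matrix.one_mul]
    rw [h5, vt_lft] at h4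
    exact h4
  have h2 : ∀ x ∈ UU n, ∀ z : Rx n → ℂ, MvPolynomial.eval (Sum.elim z x) P = 0 := by
    intro x hx z
    classical
    -- matrices with the given entries
    set A : MT n := fun j a b => if h : ¬ ((a : ℕ) = 0 ∧ (b : ℕ) = 0) then z ⟨⟨j, a, b⟩, h⟩ else 0 with hA
    have hev : ∀ᶠ t : ℂ in 𝓝[≠] 0, ∀ j, ∃ A' : Matrix (Fin (n j)) (Fin (n j)) ℂ,
        (∀ a b : Fin (n j), ¬ ((a : ℕ) = 0 ∧ (b : ℕ) = 0) → A' a b = A j a b + t * (if a = b then 1 else 0)) ∧
          A'.det = (YY x j).det := by
      rw [eventually_all]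
      exact fun j => exists_entry (A j) (YY x j)
    set w : ℂ → (Rx n → ℂ) := fun t i => z i + t * (if i.1.2.1 = i.1.2.2 then 1 else 0) with hw
    have hcont : Continuous fun t : ℂ => MvPolynomial.eval (Sum.elim (w t) x) P := by
      refine (MvPolynomial.continuous_eval P).comp ?_
      refine continuous_pi fun o => ?_
      rcases o with i | i
      · simp only [Sum.elim_inl, hw]
        fun_prop
      · exact continuous_const
    have hz : ∀ᶠ t : ℂ in 𝓝[≠] 0, MvPolynomial.eval (Sum.elim (w t) x) P = 0 := by
      filter_upwards [hev] with t ht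
      choose A' hA' hd using ht
      have h3 := h1 x hx A' hd
      rw [← h3]
      congr 2
      funext o
      rcases o with ⟨⟨j, a, b⟩, h⟩ | i
      · simp only [Sum.elim_inl, hw]
        rw [hA' j a b h, hA]
        simp only
        rw [dif_pos h]
      · rfl
    have h3 : Tendsto (fun t : ℂ => MvPolynomial.eval (Sum.elim (w t) x) P) (𝓝[≠] 0)
        (𝓝 (MvPolynomial.eval (Sum.elim (w 0) x) P)) := (hcont.tendsto 0).mono_left nhdsWithin_le_nhds
    have h4 : Tendsto (fun t : ℂ => MvPolynomial.eval (Sum.elim (w t) x) P) (𝓝[≠] 0) (𝓝 0) :=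
      tendsto_const_nhds.congr' (hz.mono fun t ht => ht.symm)
    have h5 := tendsto_nhds_unique h3 h4
    have h6 : w 0 = z := by
      funext i
      simp [hw]
    rwa [h6] at h5
  -- the branch points
  apply MvPolynomial.funext
  intro y
  rw [map_zero]
  have h3 : MvPolynomial.aeval (Sum.elim (fun i => MvPolynomial.C (y (Sum.inl i))) MvPolynomial.X) P = 0 := by
    refine Pool.Agent.Y890.MV.poly_zero UU_open UU_nonempty _ fun x hx => ?_
    rw [eval_part]
    have h4 := h2 x hx (fun i => y (Sum.inl i))
    rw [← h4]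
    congr 2
    funext o
    rcases o with i | i <;> simp
  have h4 := congrArg (MvPolynomial.eval fun i => y (Sum.inr i)) h3
  rw [eval_part, map_zero] at h4
  rw [← h4]
  congr 2
  funext o
  rcases o with i | i <;> simp

end Pool.Agent.E8helper42.MX
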