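import Mathlib

/-!
# Polynomial lemmas for cube roots
-/

set_option autoImplicit false

open Polynomial

namespace Pool.Agent.E8helper42.MX

variable {f : ℂ[X]}

/-- the norm form of `A + B S + C S²`, `S³ = f` -/
noncomputable def nm (f A B C : ℂ[X]) : ℂ[X] := A ^ 3 + B ^ 3 * f + C ^ 3 * f ^ 2 - 3 * (A * B * C * f)

/-- descent -/
theorem nm_step {r : ℂ} {g : ℂ[X]} (hg : g.eval r ≠ 0) (A B C : ℂ[X]) (h : nm ((X - Polynomial.C r) * g) A B C = 0) :
    ∃ A₁ B₁ C₁ : ℂ[X], A = (X - Polynomial.C r) * A₁ ∧ B = (X - Polynomial.C r) * B₁ ∧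
      C = (X - Polynomial.C r) * C₁ ∧ nm ((X - Polynomial.C r) * g) A₁ B₁ C₁ = 0 := by
  have hx : (X - Polynomial.C r : ℂ[X]) ≠ 0 := X_sub_C_ne_zero r
  have hp : Prime (X - Polynomial.C r : ℂ[X]) := prime_X_sub_C r
  have hpg : ¬ (X - Polynomial.C r) ∣ g := by
    rw [dvd_iff_isRoot]
    exact hg
  set π : ℂ[X] := X - Polynomial.C r with hπ
  unfold nm at h ⊢
  obtain ⟨A₁, rfl⟩ : π ∣ A := by
    refine hp.dvd_of_dvd_pow (n := 3) ⟨-(B ^ 3 * g + C ^ 3 * (π * g ^ 2) - 3 * (A * B * C * g)), ?_⟩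
    linear_combination h
  obtain ⟨B₁, rfl⟩ : π ∣ B := by
    have h1 : π ∣ B ^ 3 * g := by
      refine ⟨-(π * A₁ ^ 3 + C ^ 3 * g ^ 2 - 3 * (A₁ * B * C * g)), ?_⟩
      apply mul_left_cancel₀ hx
      linear_combination h
    exact hp.dvd_of_dvd_pow (((hp.dvd_or_dvd h1).resolve_right hpg))
  obtain ⟨C₁, rfl⟩ : π ∣ C := by
    have h1 : π ∣ C ^ 3 * g ^ 2 := by
      refine ⟨-(A₁ ^ 3 + π * B₁ ^ 3 * g - 3 * (A₁ * B₁ * C * g)), ?_⟩
      apply mul_left_cancel₀ (mul_ne_zero hx hx)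
      linear_combination h
    rcases hp.dvd_or_dvd h1 with h2 | h2
    · exact hp.dvd_of_dvd_pow h2
    · exact absurd (hp.dvd_of_dvd_pow h2) hpg
  refine ⟨A₁, B₁, C₁, rfl, rfl, rfl, ?_⟩
  apply mul_left_cancel₀ (pow_ne_zero 3 hx)
  linear_combination h

theorem nocube_aux {r : ℂ} {g : ℂ[X]} (hg : g.eval r ≠ 0) (N : ℕ) : ∀ A B C : ℂ[X],
    A.natDegree + B.natDegree + C.natDegree ≤ N → nm ((X - Polynomial.C r) * g) A B C = 0 → A = 0 ∧ B = 0 ∧ C = 0 := by
  induction N with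
  | zero =>
    intro A B C hN h
    obtain ⟨A₁, B₁, C₁, hA, hB, hC, -⟩ := nm_step hg A B C h
    have key : ∀ P P₁ : ℂ[X], P.natDegree = 0 → P = (X - Polynomial.C r) * P₁ → P = 0 := by
      intro P P₁ hP h1
      by_contra h0
      have h2 : P₁ ≠ 0 := by
        rintro rfl
        exact h0 (by rw [h1, mul_zero])
      rw [h1, natDegree_mul (X_sub_C_ne_zero r) h2, natDegree_X_sub_C] at hP
      omega
    exact ⟨key A A₁ (by omega) hA, key B B₁ (by omega) hB, key C C₁ (by omega) hC⟩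
  | succ N ih =>
    intro A B C hN h
    obtain ⟨A₁, B₁, C₁, rfl, rfl, rfl, h1⟩ := nm_step hg A B C h
    have key : ∀ P : ℂ[X], P ≠ 0 → ((X - Polynomial.C r) * P).natDegree = P.natDegree + 1 := by
      intro P hP
      rw [natDegree_mul (X_sub_C_ne_zero r) hP, natDegree_X_sub_C]
      omega
    by_cases h0 : A₁ = 0 ∧ B₁ = 0 ∧ C₁ = 0
    · obtain ⟨rfl, rfl, rfl⟩ := h0
      simp
    have hle : ∀ P : ℂ[X], P.natDegree ≤ ((X - Polynomial.C r) * P).natDegree := by
      intro P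
      by_cases hP : P = 0
      · simp [hP]
      · rw [key P hP]
        omega
    have h2 := hle A₁
    have h3 := hle B₁
    have h4 := hle C₁
    have h5 : A₁.natDegree + B₁.natDegree + C₁.natDegree ≤ N := by
      by_cases hA : A₁ = 0
      · by_cases hB : B₁ = 0
        · by_cases hC : C₁ = 0
          · exact absurd ⟨hA, hB, hC⟩ h0
          · rw [key C₁ hC] at hN
            omega
        · rw [key B₁ hB] at hN
          omega
      · rw [key A₁ hA] at hN
        omega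
    obtain ⟨rfl, rfl, rfl⟩ := ih A₁ B₁ C₁ h5 h1
    simp

/-- the norm form has no zeros -/
theorem nocube (hf : Squarefree f) (hm : 1 ≤ f.natDegree) (A B C : ℂ[X]) (h : nm f A B C = 0) :
    A = 0 ∧ B = 0 ∧ C = 0 := by
  have hdeg : f.degree ≠ 0 := by
    intro h0
    have h1 : f.natDegree = 0 := natDegree_eq_of_degree_eq_some h0
    omega
  obtain ⟨r, hr⟩ := IsAlgClosed.exists_root f hdeg
  obtain ⟨g, rfl⟩ := dvd_iff_isRoot.2 hr
  have hg : g.eval r ≠ 0 := by
    intro h0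
    obtain ⟨g', rfl⟩ := dvd_iff_isRoot.2 h0
    exact not_isUnit_X_sub_C r (hf (X - Polynomial.C r) ⟨g', by ring⟩)
  exact nocube_aux hg _ A B C le_rfl h

/-- no poles -/
theorem nopole3 (hf : Squarefree f) (P Q W : ℂ[X]) (hPQ : IsCoprime P Q) (hQ : Q ≠ 0)
    (h : 3 * f * (derivative P * Q - P * derivative Q) + 2 * P * derivative f * Q = 3 * Q * Q * W) : IsUnit Q := by
  by_contra hu
  obtain ⟨π, hπ, hπQ⟩ := WfDvdMonoid.exists_irreducible_factor hu hQ
  have hπp : Prime π := hπ.prime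
  obtain ⟨k, R, hR, hQR⟩ := WfDvdMonoid.max_power_factor hQ hπ
  have hk : k ≠ 0 := by
    rintro rfl
    apply hR
    rw [pow_zero, one_mul] at hQR
    rw [← hQR]
    exact hπQ
  obtain ⟨j, rfl⟩ := Nat.exists_eq_succ_of_ne_zero hk
  have hπ0 : π ≠ 0 := hπ.ne_zero
  have hπ' : ¬ π ∣ derivative π := by
    intro hd
    have h1 : derivative π = 0 := by
      by_contra hne
      have h2 := natDegree_le_of_dvd hd hne
      have h3 : 0 < π.natDegree := hπ.natDegree_pos
      have h4 := natDegree_derivative_lt h3.ne'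
      omega
    have h3 : 0 < π.natDegree := hπ.natDegree_pos
    have := derivative_eq_zero.1 h1
    omega
  have hπP : ¬ π ∣ P := by
    intro hd
    obtain ⟨u, v, huv⟩ := hPQ
    exact hπ.not_isUnit (isUnit_of_dvd_one (huv ▸ dvd_add (hd.mul_left u) (hπQ.mul_left v)))
  -- the derivative of `Q`
  have hQ' : derivative Q = π ^ j * (((j : ℂ[X]) + 1) * derivative π * R + π * derivative R) := by
    rw [hQR, derivative_mul, derivative_pow]
    simp only [Nat.succ_eq_add_one, Nat.add_sub_cancel]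
    push_cast
    simp only [map_add, map_natCast, map_one]
    ring
  have hc : ∀ c : ℂ, c ≠ 0 → ¬ π ∣ Polynomial.C c := by
    intro c hc0 hd
    exact hπ.not_isUnit (isUnit_of_dvd_unit hd (isUnit_C.2 (isUnit_iff_ne_zero.2 hc0)))
  have h3C : (Polynomial.C (3 : ℂ) : ℂ[X]) = 3 := map_ofNat Polynomial.C 3
  have hj0 : ¬ π ∣ ((j : ℂ[X]) + 1) := by
    have h1 : ((j : ℂ[X]) + 1) = Polynomial.C ((j : ℂ) + 1) := by simp
    rw [h1]
    exact hc _ (by exact_mod_cast Nat.succ_ne_zero j)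
  -- `π` divides `f`
  have hπf : π ∣ f := by
    have h1 : π ^ j * (π * (3 * f * derivative P * R + 2 * P * derivative f * R - 3 * π ^ (j + 1) * R * R * W)) =
        π ^ j * (3 * f * P * (((j : ℂ[X]) + 1) * derivative π * R + π * derivative R)) := by
      have h2 := h
      rw [hQ', hQR] at h2
      simp only [Nat.succ_eq_add_one] at h2
      linear_combination h2
    have h3 := mul_left_cancel₀ (pow_ne_zero j hπ0) h1
    have h4 : π ∣ 3 * f * P * (((j : ℂ[X]) + 1) * derivative π * R + π * derivative R) := ⟨_, h3.symm⟩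
    rcases hπp.dvd_or_dvd h4 with h5 | h5
    · rcases hπp.dvd_or_dvd h5 with h6 | h6
      · rcases hπp.dvd_or_dvd h6 with h7 | h7
        · rw [← h3C] at h7
          exact absurd h7 (hc 3 (by norm_num))
        · exact h7
      · exact absurd h6 hπP
    · exfalso
      have h6 : π ∣ ((j : ℂ[X]) + 1) * derivative π * R := by
        have h7 := dvd_sub h5 (Dvd.intro (derivative R) rfl : π ∣ π * derivative R)
        simpa using h7
      rcases hπp.dvd_or_dvd h6 with h7 | h7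
      · rcases hπp.dvd_or_dvd h7 with h8 | h8
        · exact hj0 h8
        · exact hπ' h8
      · exact hR h7
  obtain ⟨g, rfl⟩ := hπf
  have hπg : ¬ π ∣ g := by
    rintro ⟨g', rfl⟩
    exact hπ.not_isUnit (hf π ⟨g', by ring⟩)
  -- divide once more
  have h1 : π ^ (j + 1) * (π * (3 * g * derivative P * R + 2 * P * derivative g * R - 3 * π ^ j * R * R * W -
      3 * g * P * derivative R)) =
      π ^ (j + 1) * (g * P * R * derivative π * (3 * ((j : ℂ[X]) + 1) - 2)) := by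
    have h2 := h
    rw [hQ', hQR, derivative_mul] at h2
    simp only [Nat.succ_eq_add_one] at h2
    linear_combination h2
  have h3 := mul_left_cancel₀ (pow_ne_zero (j + 1) hπ0) h1
  have h4 : π ∣ g * P * R * derivative π * (3 * ((j : ℂ[X]) + 1) - 2) := ⟨_, h3.symm⟩
  rcases hπp.dvd_or_dvd h4 with h5 | h5
  · rcases hπp.dvd_or_dvd h5 with h6 | h6
    · rcases hπp.dvd_or_dvd h6 with h7 | h7
      · rcases hπp.dvd_or_dvd h7 with h8 | h8
        · exact hπg h8
        · exact hπP h8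
      · exact hR h7
    · exact hπ' h6
  · have h2C : (Polynomial.C (2 : ℂ) : ℂ[X]) = 2 := map_ofNat Polynomial.C 2
    have h6 : (3 * ((j : ℂ[X]) + 1) - 2) = Polynomial.C (3 * ((j : ℂ) + 1) - 2) := by simp [h3C, h2C]
    rw [h6] at h5
    refine hc _ ?_ h5
    intro h7
    have h8 : (((3 * (j + 1) : ℕ) : ℂ)) = ((2 : ℕ) : ℂ) := by
      push_cast
      linear_combination h7
    have h9 := Nat.cast_injective h8
    omega

theorem key3 (hf : Squarefree f) (P Q W : ℂ[X]) (hQ : Q ≠ 0) (hW : W.natDegree + 2 ≤ f.natDegree)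
    (h : 3 * f * (derivative P * Q - P * derivative Q) + 2 * P * derivative f * Q = 3 * Q * Q * W) : W = 0 := by
  classical
  -- lowest terms
  obtain ⟨g, P1, Q1, hg0, hco, rfl, rfl⟩ : ∃ g P1 Q1 : ℂ[X], g ≠ 0 ∧ IsCoprime P1 Q1 ∧ P = g * P1 ∧ Q = g * Q1 := by
    have hg0 : EuclideanDomain.gcd P Q ≠ 0 := by
      intro h0
      exact hQ ((EuclideanDomain.gcd_eq_zero_iff.1 h0).2)
    obtain ⟨P1, hP1⟩ := EuclideanDomain.gcd_dvd_left P Q
    obtain ⟨Q1, hQ1⟩ := EuclideanDomain.gcd_dvd_right P Q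
    refine ⟨_, P1, Q1, hg0, ?_, hP1, hQ1⟩
    have hb := EuclideanDomain.gcd_eq_gcd_ab P Q
    refine ⟨EuclideanDomain.gcdA P Q, EuclideanDomain.gcdB P Q, ?_⟩
    apply mul_left_cancel₀ hg0
    calc EuclideanDomain.gcd P Q * (EuclideanDomain.gcdA P Q * P1 + EuclideanDomain.gcdB P Q * Q1) =
          (EuclideanDomain.gcd P Q * P1) * EuclideanDomain.gcdA P Q +
          (EuclideanDomain.gcd P Q * Q1) * EuclideanDomain.gcdB P Q := by ring
      _ = P * EuclideanDomain.gcdA P Q + Q * EuclideanDomain.gcdB P Q := by rw [← hP1, ← hQ1]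
      _ = EuclideanDomain.gcd P Q * 1 := by rw [mul_one]; exact hb.symm
  have hQ1 : Q1 ≠ 0 := right_ne_zero_of_mul hQ
  have h1 : 3 * f * (derivative P1 * Q1 - P1 * derivative Q1) + 2 * P1 * derivative f * Q1 = 3 * Q1 * Q1 * W := by
    apply mul_left_cancel₀ (mul_ne_zero hg0 hg0)
    rw [derivative_mul, derivative_mul] at h
    linear_combination h
  have hu := nopole3 hf P1 Q1 W hco hQ1 h1
  have hdQ : derivative Q1 = 0 := by
    rw [derivative_eq_zero]
    exact natDegree_eq_zero_of_isUnit hu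
  have h2 : 3 * f * derivative P1 + 2 * P1 * derivative f = 3 * Q1 * W := by
    apply mul_left_cancel₀ hQ1
    rw [hdQ] at h1
    linear_combination h1
  by_contra hW0
  have h30 : (3 : ℂ[X]) ≠ 0 := by norm_num
  have hP1 : P1 ≠ 0 := by
    rintro rfl
    rw [derivative_zero, mul_zero, mul_zero, zero_mul, add_zero] at h2
    have : (3 : ℂ[X]) * Q1 * W ≠ 0 := mul_ne_zero (mul_ne_zero h30 hQ1) hW0
    exact this h2.symm
  have hf0 : f ≠ 0 := by
    rintro rfl
    simp at hW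
  have h3 : derivative (P1 ^ 3 * f ^ 2) = P1 ^ 2 * f * (3 * Q1 * W) := by
    rw [← h2, derivative_mul, derivative_pow, derivative_pow]
    simp only [Nat.cast_ofNat, map_ofNat, Nat.add_one_sub_one, pow_one]
    ring
  have h4 : (P1 ^ 3 * f ^ 2).natDegree = 3 * P1.natDegree + 2 * f.natDegree := by
    rw [natDegree_mul (pow_ne_zero _ hP1) (pow_ne_zero _ hf0), natDegree_pow, natDegree_pow]
  have h5 : (derivative (P1 ^ 3 * f ^ 2)).natDegree = (P1 ^ 3 * f ^ 2).natDegree - 1 := natDegree_derivative _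
  have h6 : (P1 ^ 2 * f * (3 * Q1 * W)).natDegree = 2 * P1.natDegree + f.natDegree + W.natDegree := by
    rw [natDegree_mul (mul_ne_zero (pow_ne_zero _ hP1) hf0) (mul_ne_zero (mul_ne_zero h30 hQ1) hW0),
      natDegree_mul (pow_ne_zero _ hP1) hf0, natDegree_pow,
      natDegree_mul (mul_ne_zero h30 hQ1) hW0, natDegree_mul h30 hQ1, natDegree_eq_zero_of_isUnit hu]
    have : (3 : ℂ[X]).natDegree = 0 := natDegree_ofNat 3
    rw [this]
    omega
  rw [h3, h6, h4] at h5
  omega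

end Pool.Agent.E8helper42.MX
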