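import Pool.Agent.E8helper42.MX.Ind
import Pool.Agent.R349.MVBall

/-!
# Functions which are independent over `ℂ` and functions which are independent over `ℂ(z)`
-/

set_option autoImplicit false
set_option linter.unusedSectionVars false

open Set Filter Topology

namespace Pool.Agent.E8helper42.MX

open Pool.Agent.Y890.MV (evM evM_an LocIndM exists_fieldM)

/-- exchange -/
theorem exchange {L X σ : Type} [Field L] [Algebra ℂ L] [Fintype X] [Fintype σ] {z : X → L} {F : σ → L}
    (hz : AlgebraicIndependent ℂ z) (hF : AlgebraicIndependent ℂ F) (N : ℕ)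
    (hN : N + Fintype.card X ≤ Fintype.card σ) :
    ∃ ι : Fin N → σ, Function.Injective ι ∧ AlgebraicIndependent ℂ (Sum.elim z (F ∘ ι)) := by
  classical
  have key : ∀ k ≤ N, ∃ B : Finset σ, B.card = k ∧ Disjoint (range z) (F '' (B : Set σ)) ∧
      (AlgebraicIndependent.matroid ℂ L).Indep (range z ∪ F '' (B : Set σ)) := by
    intro k
    induction k with
    | zero =>
      intro _
      refine ⟨∅, rfl, by simp, ?_⟩
      rw [AlgebraicIndependent.matroid_indep_iff, Finset.coe_empty, image_empty, union_empty]
      exact (algebraicIndependent_subtype_range hz.injective).2 hz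
    | succ k ih =>
      intro hk
      obtain ⟨B, hBc, hdis, hB⟩ := ih (by omega)
      have hJ : (AlgebraicIndependent.matroid ℂ L).Indep (range F) := by
        rw [AlgebraicIndependent.matroid_indep_iff]
        exact (algebraicIndependent_subtype_range hF.injective).2 hF
      have hc1 : (range z ∪ F '' (B : Set σ)).encard = ((Fintype.card X + k : ℕ) : ℕ∞) := by
        rw [encard_union_eq hdis, ← image_univ, hz.injective.encard_image, hF.injective.encard_image,
          encard_coe_eq_coe_finsetCard, hBc, encard_univ, ENat.card_eq_coe_fintype_card]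
        push_cast
        rfl
      have hc2 : (range F).encard = ((Fintype.card σ : ℕ) : ℕ∞) := by
        rw [← image_univ, hF.injective.encard_image, encard_univ, ENat.card_eq_coe_fintype_card]
      obtain ⟨e, ⟨⟨i, rfl⟩, he⟩, hins⟩ := hB.augment hJ (by
        rw [hc1, hc2]
        exact_mod_cast (by omega : Fintype.card X + k < Fintype.card σ))
      have hiB : i ∉ B := fun h => he (Or.inr ⟨i, h, rfl⟩)
      refine ⟨insert i B, by rw [Finset.card_insert_of_notMem hiB, hBc], ?_, ?_⟩
      · rw [Finset.coe_insert, image_insert_eq, disjoint_insert_right]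
        exact ⟨fun h => he (Or.inl h), hdis⟩
      · rw [Finset.coe_insert, image_insert_eq, union_insert]
        exact hins
  obtain ⟨B, hBc, hdis, hB⟩ := key N le_rfl
  let eqv := B.equivFinOfCardEq hBc
  let ι : Fin N → σ := fun i => (eqv.symm i : σ)
  have hι : Function.Injective ι := Subtype.val_injective.comp eqv.symm.injective
  refine ⟨ι, hι, ?_⟩
  have hinj : Function.Injective (Sum.elim z (F ∘ ι)) := by
    refine Function.Injective.sumElim hz.injective (hF.injective.comp hι) fun a b h => ?_
    exact (disjoint_left.1 hdis) (mem_range_self a) (h ▸ ⟨ι b, (eqv.symm b).2, rfl⟩)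
  rw [← algebraicIndependent_subtype_range hinj]
  have hr : range (Sum.elim z (F ∘ ι)) = range z ∪ F '' (B : Set σ) := by
    rw [Sum.elim_range, range_comp]
    congr 2
    ext s
    constructor
    · rintro ⟨i, rfl⟩
      exact (eqv.symm i).2
    · intro hs
      exact ⟨eqv ⟨s, hs⟩, by simp [ι]⟩
  rw [hr]
  rw [AlgebraicIndependent.matroid_indep_iff] at hB
  exact hB

section
variable {X σ : Type} [Fintype X] {V : Set (X → ℂ)}

/-- the polynomial in the coordinates and some of the functions -/
noncomputable def jn {N : ℕ} (ι : Fin N → σ) (P : MvPolynomial (X ⊕ Fin N) ℂ) : MvPolynomial σ (MvPolynomial X ℂ) :=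
  MvPolynomial.eval₂ (MvPolynomial.C.comp MvPolynomial.C)
    (Sum.elim (fun i => MvPolynomial.C (MvPolynomial.X i)) fun i => MvPolynomial.X (ι i)) P

lemma evM_jn {N : ℕ} (ι : Fin N → σ) (P : MvPolynomial (X ⊕ Fin N) ℂ) (G : σ → (X → ℂ) → ℂ) (x : X → ℂ) :
    evM G x (jn ι P) = MvPolynomial.eval (Sum.elim x fun i => G (ι i) x) P := by
  unfold evM jn
  rw [← MvPolynomial.coe_eval₂Hom (MvPolynomial.eval x), MvPolynomial.hom_eval₂]
  have h1 : ((MvPolynomial.eval₂Hom (MvPolynomial.eval x) fun i : σ => G i x).comp
      (MvPolynomial.C.comp MvPolynomial.C)) = RingHom.id ℂ := by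
    ext c <;> simp
  rw [h1, MvPolynomial.eval₂_id]
  congr 2
  funext o
  rcases o with i | i <;> simp

/-- **the functions which are independent over `ℂ(z)`** -/
theorem exists_sub [Fintype σ] (hV : IsPreconnected V) (hVo : IsOpen V) (hne : V.Nonempty) {G : σ → (X → ℂ) → ℂ}
    (hG : ∀ i, AnalyticOnNhd ℂ (G i) V) (hind : Ind V G) (N : ℕ) (hN : N + Fintype.card X ≤ Fintype.card σ) :
    ∃ ι : Fin N → σ, Function.Injective ι ∧ ∀ t ∈ V, LocIndM (fun i t => G (ι i) t) t := by
  classical
  obtain ⟨L, iF, iA, iS, F, hz, -⟩ := exists_fieldM hV hVo hne hG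
  let iC : Algebra ℂ L := ((algebraMap (MvPolynomial X ℂ) L).comp MvPolynomial.C).toAlgebra
  have hinj : Function.Injective (algebraMap (MvPolynomial X ℂ) L) := FaithfulSMul.algebraMap_injective _ _
  set z : X → L := fun i => algebraMap (MvPolynomial X ℂ) L (MvPolynomial.X i) with hzdef
  have hzi : AlgebraicIndependent ℂ z := by
    rw [algebraicIndependent_iff]
    intro p hp
    have h1 : MvPolynomial.aeval z p = algebraMap (MvPolynomial X ℂ) L p := by
      have h2 : (MvPolynomial.aeval (R := ℂ) z).toRingHom = algebraMap (MvPolynomial X ℂ) L := by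
        refine MvPolynomial.ringHom_ext ?_ ?_
        · intro c
          change MvPolynomial.aeval z (MvPolynomial.C c) = _
          rw [MvPolynomial.aeval_C]
          rfl
        · intro i
          change MvPolynomial.aeval z (MvPolynomial.X i) = _
          rw [MvPolynomial.aeval_X]
      exact RingHom.congr_fun h2 p
    rw [h1] at hp
    exact hinj (hp.trans (map_zero _).symm)
  have hFi : AlgebraicIndependent ℂ F := by
    rw [algebraicIndependent_iff]
    intro p hp
    have h1 : MvPolynomial.aeval F p = MvPolynomial.aeval F (MvPolynomial.map (MvPolynomial.C (σ := X)) p) := by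
      have h2 : (MvPolynomial.aeval (R := ℂ) F).toRingHom =
          (MvPolynomial.aeval (R := MvPolynomial X ℂ) F).toRingHom.comp (MvPolynomial.map MvPolynomial.C) := by
        refine MvPolynomial.ringHom_ext ?_ ?_
        · intro c
          change MvPolynomial.aeval F (MvPolynomial.C c) =
            MvPolynomial.aeval F (MvPolynomial.map MvPolynomial.C (MvPolynomial.C c))
          rw [MvPolynomial.aeval_C, MvPolynomial.map_C, MvPolynomial.aeval_C]
          rfl
        · intro i
          change MvPolynomial.aeval F (MvPolynomial.X i) =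
            MvPolynomial.aeval F (MvPolynomial.map MvPolynomial.C (MvPolynomial.X i))
          rw [MvPolynomial.aeval_X, MvPolynomial.map_X, MvPolynomial.aeval_X]
      exact RingHom.congr_fun h2 p
    rw [h1, hz] at hp
    apply hind
    intro x hx
    have h2 := hp x hx
    unfold evM at h2
    rw [MvPolynomial.eval₂_map] at h2
    have h3 : (MvPolynomial.eval x).comp (MvPolynomial.C (σ := X)) = RingHom.id ℂ := by
      ext c <;> simp
    rw [h3, MvPolynomial.eval₂_id] at h2
    exact h2
  obtain ⟨ι, hι, hi⟩ := exchange hzi hFi N hN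
  refine ⟨ι, hι, fun t ht P hP => ?_⟩
  have h1 : ∀ x ∈ V, evM G x (jn ι P) = 0 := by
    have h2 := evM_an hG (jn ι P)
    refine h2.eqOn_zero_of_preconnected_of_eventuallyEq_zero hV ht ?_
    filter_upwards [hP] with x hx
    rw [evM_jn]
    exact hx
  rw [← hz] at h1
  have h2 : MvPolynomial.aeval F (jn ι P) = MvPolynomial.aeval (Sum.elim z (F ∘ ι)) P := by
    let J : MvPolynomial (X ⊕ Fin N) ℂ →+* MvPolynomial σ (MvPolynomial X ℂ) :=
      MvPolynomial.eval₂Hom (MvPolynomial.C.comp MvPolynomial.C)
        (Sum.elim (fun i => MvPolynomial.C (MvPolynomial.X i)) fun i => MvPolynomial.X (ι i))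
    have h3 : (MvPolynomial.aeval (R := MvPolynomial X ℂ) F).toRingHom.comp J =
        (MvPolynomial.aeval (R := ℂ) (Sum.elim z (F ∘ ι))).toRingHom := by
      refine MvPolynomial.ringHom_ext ?_ ?_
      · intro c
        change MvPolynomial.aeval F (J (MvPolynomial.C c)) = MvPolynomial.aeval (Sum.elim z (F ∘ ι)) (MvPolynomial.C c)
        rw [MvPolynomial.eval₂Hom_C, MvPolynomial.aeval_C]
        change MvPolynomial.aeval F (MvPolynomial.C (MvPolynomial.C c)) = _
        rw [MvPolynomial.aeval_C]
        rfl
      · intro o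
        change MvPolynomial.aeval F (J (MvPolynomial.X o)) = MvPolynomial.aeval (Sum.elim z (F ∘ ι)) (MvPolynomial.X o)
        rw [MvPolynomial.eval₂Hom_X', MvPolynomial.aeval_X]
        rcases o with i | i
        · simp only [Sum.elim_inl]
          rw [MvPolynomial.aeval_C]
        · simp only [Sum.elim_inr]
          rw [MvPolynomial.aeval_X]
          rfl
    exact RingHom.congr_fun h3 P
  rw [h2] at h1
  exact algebraicIndependent_iff.1 hi P h1

end

end Pool.Agent.E8helper42.MX
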